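import Mathlib

/-!
# Density of hyperbolicity is a semi-local question: definitions
-/

set_option autoImplicit false

open Polynomial Filter Topology Metric

namespace Pool.Agent.J4.H41.DR

/-- The polynomial as a self-map of the plane. -/
def map (T : ℂ[X]) : ℂ → ℂ := fun w : ℂ => T.eval w

/-- The orbit of `z` escapes to infinity. -/
def Escapes (T : ℂ[X]) (z : ℂ) : Prop :=
  Tendsto (fun k : ℕ => ‖(map T)^[k] z‖) atTop atTop

/-- The orbit of `z` is attracted by an attracting periodic point of `f`. -/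
def Attracted (f : ℂ → ℂ) (z : ℂ) : Prop :=
  ∃ n : ℕ, 0 < n ∧ ∃ x : ℂ, f^[n] x = x ∧ ‖deriv (f^[n]) x‖ < 1 ∧
    Tendsto (fun k : ℕ => f^[n * k] z) atTop (𝓝 x)

/-- `S` is hyperbolic: every critical point escapes or is attracted by a sink. -/
def Hyperbolic (S : ℂ[X]) : Prop :=
  ∀ c : ℂ, (derivative S).eval c = 0 → Escapes S c ∨ Attracted (map S) c

/-- `T` is a limit of hyperbolic polynomials of the same degree. -/
def Approx (T : ℂ[X]) : Prop :=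
  ∀ ε : ℝ, 0 < ε → ∃ S : ℂ[X], S.natDegree = T.natDegree ∧
    (∀ i : ℕ, ‖S.coeff i - T.coeff i‖ < ε) ∧ Hyperbolic S

/-- The orbit of `z` under `f` stays in the disc of radius `R`. -/
def Stays (f : ℂ → ℂ) (R : ℝ) (z : ℂ) : Prop := ∀ n : ℕ, ‖f^[n] z‖ < R

/-- Every critical point of `f` whose orbit stays in the disc of radius `R` is attracted by a
sink. -/
def LocHyp (f : ℂ → ℂ) (R : ℝ) : Prop :=
  ∀ c : ℂ, Stays f R c → deriv f c = 0 → Attracted f c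

/-- The homeomorphism `h` conjugates `f`, on the disc of radius `R`, to the polynomial `S`, and
the orbits which leave the disc correspond to escaping orbits. -/
def Conj (f : ℂ → ℂ) (R : ℝ) (S : ℂ[X]) (h : ℂ ≃ₜ ℂ) : Prop :=
  (∀ z : ℂ, ‖z‖ < R → ‖f z‖ < R → S.eval (h z) = h (f z)) ∧
    ∀ z : ℂ, ¬ Stays f R z → Escapes S (h z)

/-- The straightening theorem of Douady and Hubbard, near a polynomial `P`: every holomorphic map
which is close to `P` on a large disc is conjugate there to a polynomial of the same degree close to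
`P`. -/
def Straightening : Prop :=
  ∀ P : ℂ[X], 2 ≤ P.natDegree → ∀ ε : ℝ, 0 < ε → ∃ R₀ : ℝ, ∀ R : ℝ, R₀ ≤ R →
    ∃ δ : ℝ, 0 < δ ∧ ∀ f : ℂ → ℂ, DifferentiableOn ℂ f (ball 0 R) →
      (∀ z ∈ ball (0 : ℂ) R, ‖f z - P.eval z‖ < δ) →
      ∃ (S : ℂ[X]) (h : ℂ ≃ₜ ℂ), S.natDegree = P.natDegree ∧
        (∀ i : ℕ, ‖S.coeff i - P.coeff i‖ < ε) ∧ Conj f R S h

/-- Every polynomial of degree `D` is a limit of hyperbolic polynomials of degree `D`. -/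
def DenseIn (D : ℕ) : Prop := ∀ T : ℂ[X], T.natDegree = D → Approx T

/-- Every polynomial of degree `D` with rational coefficients is a limit of hyperbolic (complex)
polynomials of degree `D`. -/
def RationalIn (D : ℕ) : Prop :=
  ∀ T : ℚ[X], T.natDegree = D → Approx (T.map (algebraMap ℚ ℂ))

/-- `P` is a locally uniform limit of holomorphic maps on larger and larger discs which are
hyperbolic inside the disc. -/
def SemiLocal (P : ℂ[X]) : Prop :=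
  ∀ R ε : ℝ, 0 < ε → ∃ R' : ℝ, R ≤ R' ∧ ∃ f : ℂ → ℂ, DifferentiableOn ℂ f (ball 0 R') ∧
    (∀ z ∈ ball (0 : ℂ) R', ‖f z - P.eval z‖ < ε) ∧ LocHyp f R'

/-! ## The pieces -/

/-- K1 -/
def S_K1 : Prop := ∀ (N : ℕ) (ρ ε : ℝ), 0 < ε → ∃ τ : ℝ, 0 < τ ∧ ∀ A B : ℂ[X],
  A.natDegree ≤ N → B.natDegree ≤ N → (∀ i : ℕ, ‖A.coeff i - B.coeff i‖ < τ) →
  ∀ z : ℂ, ‖z‖ ≤ ρ → ‖A.eval z - B.eval z‖ < ε

/-- K2 -/
def S_K2 : Prop := ∀ P : ℂ[X], 2 ≤ P.natDegree → ∃ R₁ : ℝ, 1 ≤ R₁ ∧ ∀ R : ℝ, R₁ ≤ R →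
  ∀ z : ℂ, R / 2 ≤ ‖z‖ → R + 1 ≤ ‖P.eval z‖

/-- K3 -/
def S_K3 : Prop := ∀ S : ℂ[X], 1 ≤ S.natDegree → ∀ c : ℂ, (derivative S).eval c = 0 →
  ∀ U ∈ 𝓝 c, ¬ Set.InjOn (fun z => S.eval z) U

/-- K4 -/
def S_K4 : Prop := ∀ (f : ℂ → ℂ) (R : ℝ) (S : ℂ[X]) (h : ℂ ≃ₜ ℂ) (p : ℕ) (x : ℂ),
  DifferentiableOn ℂ f (ball 0 R) →
  (∀ z : ℂ, ‖z‖ < R → ‖f z‖ < R → S.eval (h z) = h (f z)) →
  0 < p → f^[p] x = x → Stays f R x → ‖deriv (f^[p]) x‖ < 1 →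
  (map S)^[p] (h x) = h x ∧ ‖deriv ((map S)^[p]) (h x)‖ < 1

/-- K6 -/
def S_K6 : Prop := ∀ (P : ℂ[X]) (R ε : ℝ), 0 < R → 0 < ε → ∃ (L : ℝ) (N : ℕ), ∀ D : ℕ, N ≤ D →
  ∃ T : ℚ[X], T.natDegree = D ∧ ∀ z : ℂ, ‖z‖ ≤ R →
    ‖(T.map (algebraMap ℚ ℂ)).eval (z + L * Complex.I) - L * Complex.I - P.eval z‖ < ε

/-- K8 -/
def S_K8 : Prop := ∀ (S : ℂ[X]) (a : ℂ) (R : ℝ), Hyperbolic S →
  LocHyp (fun z => S.eval (z + a) - a) R

end Pool.Agent.J4.H41.DR
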