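import Pool.Agent.J4.H41.DR.Defs

set_option autoImplicit false

open Polynomial Filter Topology Metric

namespace Pool.Agent.J4.H41.DR

/-- the orbit of the sink stays in the disc -/
theorem k5 {f : ℂ → ℂ} {R : ℝ} (hR : 0 < R) (hf : DifferentiableOn ℂ f (ball 0 R))
    (hout : ∀ z : ℂ, R / 2 ≤ ‖z‖ → ‖z‖ < R → R ≤ ‖f z‖) {c x : ℂ} {p : ℕ} (hp : 0 < p)
    (hc : Stays f R c) (hx : Tendsto (fun k : ℕ => f^[p * k] c) atTop (𝓝 x)) :
    Stays f R x := by
  have h1 : ∀ n : ℕ, ‖f^[n] c‖ ≤ R / 2 := by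
    intro n
    by_contra hcon
    push Not at hcon
    have h2 := hout _ hcon.le (hc n)
    have h3 := hc (n + 1)
    rw [Function.iterate_succ_apply'] at h3
    linarith
  have h2 : ∀ n : ℕ, Tendsto (fun k : ℕ => f^[n] (f^[p * k] c)) atTop (𝓝 (f^[n] x)) ∧
      ‖f^[n] x‖ ≤ R / 2 := by
    intro n
    induction n with
    | zero =>
      refine ⟨by simpa using hx, ?_⟩
      exact le_of_tendsto (by simpa using hx.norm) (Eventually.of_forall fun k => h1 _)
    | succ n ih =>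
      have h3 : f^[n] x ∈ ball (0 : ℂ) R := by
        rw [mem_ball_zero_iff]
        linarith [ih.2]
      have h4 : ContinuousAt f (f^[n] x) :=
        (hf.continuousOn).continuousAt (isOpen_ball.mem_nhds h3)
      have h5 : Tendsto (fun k : ℕ => f^[n + 1] (f^[p * k] c)) atTop (𝓝 (f^[n + 1] x)) := by
        simp only [Function.iterate_succ_apply' f n]
        exact h4.tendsto.comp ih.1
      refine ⟨h5, ?_⟩
      refine le_of_tendsto h5.norm (Eventually.of_forall fun k => ?_)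
      rw [← Function.iterate_add_apply]
      exact h1 _
  intro n
  linarith [(h2 n).2]

/-- orbits are mapped to orbits -/
theorem conj_iter {f : ℂ → ℂ} {R : ℝ} {S : ℂ[X]} {h : ℂ ≃ₜ ℂ}
    (hc : ∀ z : ℂ, ‖z‖ < R → ‖f z‖ < R → S.eval (h z) = h (f z)) {z : ℂ} (hz : Stays f R z)
    (n : ℕ) : (map S)^[n] (h z) = h (f^[n] z) := by
  induction n with
  | zero => rfl
  | succ n ih =>
    rw [Function.iterate_succ_apply', ih, Function.iterate_succ_apply']
    have h1 := hz n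
    have h2 := hz (n + 1)
    rw [Function.iterate_succ_apply'] at h2
    exact hc _ h1 h2

/-- a critical point of the polynomial comes from a critical point of the map -/
theorem crit (k3 : S_K3) {f : ℂ → ℂ} {R : ℝ} (hf : DifferentiableOn ℂ f (ball 0 R)) {S : ℂ[X]}
    (hS : 1 ≤ S.natDegree) {h : ℂ ≃ₜ ℂ}
    (hc : ∀ z : ℂ, ‖z‖ < R → ‖f z‖ < R → S.eval (h z) = h (f z)) {c : ℂ} (h1 : ‖c‖ < R)
    (h2 : ‖f c‖ < R) (h3 : (derivative S).eval (h c) = 0) : deriv f c = 0 := by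
  by_contra hne
  have hcb : c ∈ ball (0 : ℂ) R := by rwa [mem_ball_zero_iff]
  have han : AnalyticAt ℂ f c := hf.analyticAt (isOpen_ball.mem_nhds hcb)
  have hs : HasStrictDerivAt f (deriv f c) c := han.hasStrictDerivAt
  obtain ⟨U, hU, hinj⟩ : ∃ U ∈ 𝓝 c, Set.InjOn f U := by
    have hs' := hs.hasStrictFDerivAt_equiv hne
    exact ⟨_, (hs'.toOpenPartialHomeomorph f).open_source.mem_nhds
      hs'.mem_toOpenPartialHomeomorph_source, (hs'.toOpenPartialHomeomorph f).injOn⟩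
  have hcont : ContinuousAt f c := han.continuousAt
  set V : Set ℂ := U ∩ (ball 0 R ∩ f ⁻¹' ball 0 R) with hV
  have hVn : V ∈ 𝓝 c := by
    refine inter_mem hU (inter_mem (isOpen_ball.mem_nhds hcb) (hcont.preimage_mem_nhds ?_))
    exact isOpen_ball.mem_nhds (by rwa [mem_ball_zero_iff])
  have hW : h.symm ⁻¹' V ∈ 𝓝 (h c) := by
    have : ContinuousAt h.symm (h c) := h.symm.continuous.continuousAt
    apply this.preimage_mem_nhds
    rw [h.symm_apply_apply]
    exact hVn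
  refine k3 S hS (h c) h3 _ hW ?_
  intro a ha b hb hab
  have ha' : h.symm a ∈ V := ha
  have hb' : h.symm b ∈ V := hb
  have ea := hc (h.symm a) (by simpa using ha'.2.1) (by simpa using ha'.2.2)
  have eb := hc (h.symm b) (by simpa using hb'.2.1) (by simpa using hb'.2.2)
  rw [h.apply_symm_apply] at ea eb
  have hab' : S.eval a = S.eval b := hab
  rw [ea, eb] at hab'
  have h4 : f (h.symm a) = f (h.symm b) := h.injective hab'
  exact h.symm.injective (hinj ha'.1 hb'.1 h4)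

/-- the criterion -/
theorem main (hS : Straightening) (k2 : S_K2) (k3 : S_K3) (k4 : S_K4) :
    ∀ P : ℂ[X], 2 ≤ P.natDegree → ∀ ε : ℝ, 0 < ε → ∃ R₀ : ℝ, ∀ R : ℝ, R₀ ≤ R →
      ∃ δ : ℝ, 0 < δ ∧ ∀ f : ℂ → ℂ, DifferentiableOn ℂ f (ball 0 R) →
        (∀ z ∈ ball (0 : ℂ) R, ‖f z - P.eval z‖ < δ) → LocHyp f R →
        ∃ S : ℂ[X], S.natDegree = P.natDegree ∧ (∀ i : ℕ, ‖S.coeff i - P.coeff i‖ < ε) ∧
          Hyperbolic S := by
  intro P hP ε hε
  obtain ⟨R₀, hR₀⟩ := hS P hP ε hε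
  obtain ⟨R₁, hR₁1, hR₁⟩ := k2 P hP
  refine ⟨max R₀ R₁, fun R hR => ?_⟩
  obtain ⟨δ, hδ, hδ'⟩ := hR₀ R ((le_max_left _ _).trans hR)
  have hRR : R₁ ≤ R := (le_max_right _ _).trans hR
  have hR0 : 0 < R := by linarith
  refine ⟨min δ 1, lt_min hδ one_pos, fun f hf hclose hloc => ?_⟩
  obtain ⟨S, h, hdeg, hcoef, hconj, hesc⟩ :=
    hδ' f hf fun z hz => (hclose z hz).trans_le (min_le_left _ _)
  have hout : ∀ z : ℂ, R / 2 ≤ ‖z‖ → ‖z‖ < R → R ≤ ‖f z‖ := by
    intro z hz1 hz2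
    have h1 := hR₁ R hRR z hz1
    have h2 : ‖f z - P.eval z‖ < 1 :=
      (hclose z (by rwa [mem_ball_zero_iff])).trans_le (min_le_right _ _)
    have h3 : ‖P.eval z‖ ≤ ‖f z‖ + ‖f z - P.eval z‖ := by
      have := norm_sub_le (f z) (f z - P.eval z)
      simpa using this
    linarith
  refine ⟨S, hdeg, hcoef, fun c' hc' => ?_⟩
  obtain ⟨c, rfl⟩ : ∃ c, c' = h c := ⟨h.symm c', (h.apply_symm_apply c').symm⟩
  by_cases hst : Stays f R c
  · right
    have h0 : ‖c‖ < R := hst 0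
    have h1 : ‖f c‖ < R := hst 1
    have hd : deriv f c = 0 := crit k3 hf (by omega) hconj h0 h1 hc'
    obtain ⟨p, hp, x, hx1, hx2, hx3⟩ := hloc c hst hd
    have hsx : Stays f R x := k5 hR0 hf hout hp hst hx3
    obtain ⟨h2, h3⟩ := k4 f R S h p x hf hconj hp hx1 hsx hx2
    refine ⟨p, hp, h x, h2, h3, ?_⟩
    have h4 : (fun k : ℕ => (map S)^[p * k] (h c)) = fun k : ℕ => h (f^[p * k] c) := by
      funext k
      exact conj_iter hconj hst _
    rw [h4]
    exact (h.continuous.tendsto x).comp hx3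
  · exact Or.inl (hesc c hst)

end Pool.Agent.J4.H41.DR
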