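import Pool.Agent.J4.H41.DR.K1
import Pool.Agent.J4.H41.DR.Main

set_option autoImplicit false

open Polynomial Filter Topology Metric

namespace Pool.Agent.J4.H41.DR

/-- `P` is a limit, coefficient by coefficient, of hyperbolic polynomials of degree `D`. -/
def LimitIn (D : ℕ) (P : ℂ[X]) : Prop :=
  ∀ ε : ℝ, 0 < ε → ∃ S : ℂ[X], S.natDegree = D ∧ (∀ i : ℕ, ‖S.coeff i - P.coeff i‖ < ε) ∧
    Hyperbolic S

/-- `P` is a locally uniform limit of holomorphic maps which are hyperbolic inside the discs. -/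
def SemiLim (P : ℂ[X]) : Prop :=
  ∀ R ε : ℝ, 0 < ε → ∃ f : ℂ → ℂ, DifferentiableOn ℂ f (ball 0 R) ∧
    (∀ z ∈ ball (0 : ℂ) R, ‖f z - P.eval z‖ < ε) ∧ LocHyp f R

theorem locHyp_poly {S : ℂ[X]} (hS : Hyperbolic S) (R : ℝ) : LocHyp (fun z => S.eval z) R := by
  have h := k8 S 0 R hS
  simpa using h

section

variable (hS : Straightening) (k3 : S_K3) (k4 : S_K4)

include hS k3 k4

theorem semi_of {P : ℂ[X]} (hP : 2 ≤ P.natDegree) (h : SemiLim P) : Approx P := by
  intro ε hε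
  obtain ⟨R₀, hR₀⟩ := main hS k2 k3 k4 P hP ε hε
  obtain ⟨δ, hδ, h1⟩ := hR₀ R₀ le_rfl
  obtain ⟨f, h2, h3, h4⟩ := h R₀ δ hδ
  exact h1 f h2 h3 h4

theorem limitIn_of {P : ℂ[X]} (hP : 2 ≤ P.natDegree) {D : ℕ} (h : LimitIn D P) : Approx P := by
  apply semi_of hS k3 k4 hP
  intro R ε hε
  obtain ⟨τ, hτ, h1⟩ := k1 (max D P.natDegree) R ε hε
  obtain ⟨S, hS1, hS2, hS3⟩ := h τ hτ
  refine ⟨fun z => S.eval z, S.differentiable.differentiableOn, fun z hz => ?_,
    locHyp_poly hS3 R⟩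
  rw [mem_ball_zero_iff] at hz
  exact h1 S P (by rw [hS1]; exact le_max_left _ _) (le_max_right _ _) hS2 z hz.le

theorem dense_mono {d D : ℕ} (hd : 2 ≤ d) (hdD : d ≤ D) (h : DenseIn D) : DenseIn d := by
  intro P hP
  apply limitIn_of hS k3 k4 (by omega) (D := D)
  intro ε hε
  rcases hdD.eq_or_lt with rfl | hlt
  · obtain ⟨S, h1, h2, h3⟩ := h P hP ε hε
    exact ⟨S, by rw [h1, hP], h2, h3⟩
  · set κ : ℂ := ((ε / 2 : ℝ) : ℂ) with hκ
    have hκ0 : κ ≠ 0 := by
      rw [hκ, Complex.ofReal_ne_zero]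
      positivity
    have hκn : ‖κ‖ = ε / 2 := by
      rw [hκ, Complex.norm_real, Real.norm_of_nonneg (by positivity)]
    have hdeg : (P + C κ * X ^ D).natDegree = D := by
      rw [natDegree_add_eq_right_of_natDegree_lt]
      · exact natDegree_C_mul_X_pow D κ hκ0
      · rw [natDegree_C_mul_X_pow D κ hκ0]
        omega
    obtain ⟨S, h1, h2, h3⟩ := h (P + C κ * X ^ D) hdeg (ε / 2) (by positivity)
    refine ⟨S, by rw [h1, hdeg], fun i => ?_, h3⟩
    have h4 := h2 i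
    rw [coeff_add, coeff_C_mul_X_pow] at h4
    have h5 : ‖(if i = D then κ else 0 : ℂ)‖ ≤ ε / 2 := by
      split_ifs
      · exact hκn.le
      · rw [norm_zero]; positivity
    have h6 : S.coeff i - P.coeff i
        = (S.coeff i - (P.coeff i + if i = D then κ else 0)) + (if i = D then κ else 0) := by ring
    rw [h6]
    calc _ ≤ ‖S.coeff i - (P.coeff i + if i = D then κ else 0)‖ + ‖(if i = D then κ else 0 : ℂ)‖ :=
          norm_add_le _ _
      _ < ε / 2 + ε / 2 := by linarith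
      _ = ε := by ring

theorem rational (k6 : S_K6) (h : ∃ᶠ D in atTop, RationalIn D) {P : ℂ[X]}
    (hP : 2 ≤ P.natDegree) : Approx P := by
  apply semi_of hS k3 k4 hP
  intro R ε hε
  obtain ⟨L, N, h6⟩ := k6 P (max R 1) (ε / 2) (by positivity) (by positivity)
  obtain ⟨D, hD1, hD2⟩ := (h.and_eventually (eventually_ge_atTop N)).exists
  obtain ⟨T, hT1, hT2⟩ := h6 D hD2
  set a : ℂ := (L : ℂ) * Complex.I with ha
  obtain ⟨τ, hτ, h1⟩ := k1 D (max R 1 + ‖a‖) (ε / 2) (by positivity)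
  obtain ⟨S, hS1, hS2, hS3⟩ := hD1 T hT1 τ hτ
  have hTd : (T.map (algebraMap ℚ ℂ)).natDegree = D := by
    rw [natDegree_map, hT1]
  refine ⟨fun z => S.eval (z + a) - a, ?_, ?_, k8 S a R hS3⟩
  · refine Differentiable.differentiableOn ?_
    exact (S.differentiable.comp (differentiable_id.add_const a)).sub_const a
  · intro z hz
    rw [mem_ball_zero_iff] at hz
    have hz' : ‖z‖ ≤ max R 1 := hz.le.trans (le_max_left _ _)
    have e1 := hT2 z hz'
    have e2 := h1 S (T.map (algebraMap ℚ ℂ)) (by rw [hS1, hTd]) hTd.le hS2 (z + a)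
      ((norm_add_le _ _).trans (by linarith))
    have e3 : S.eval (z + a) - a - P.eval z
        = (S.eval (z + a) - (T.map (algebraMap ℚ ℂ)).eval (z + a))
          + ((T.map (algebraMap ℚ ℂ)).eval (z + a) - a - P.eval z) := by ring
    show ‖S.eval (z + a) - a - P.eval z‖ < ε
    rw [e3]
    calc _ ≤ _ := norm_add_le _ _
      _ < ε / 2 + ε / 2 := by linarith
      _ = ε := by ring

end

theorem semi_of_approx {P : ℂ[X]} (h : Approx P) : SemiLim P := by
  intro R ε hε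
  obtain ⟨τ, hτ, h1⟩ := k1 P.natDegree R ε hε
  obtain ⟨S, hS1, hS2, hS3⟩ := h τ hτ
  refine ⟨fun z => S.eval z, S.differentiable.differentiableOn, fun z hz => ?_,
    locHyp_poly hS3 R⟩
  rw [mem_ball_zero_iff] at hz
  exact h1 S P hS1.le le_rfl hS2 z hz.le

end Pool.Agent.J4.H41.DR
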