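import Pool.Agent.J4.H41.DR.Defs

set_option autoImplicit false

open Polynomial Filter Topology Metric

namespace Pool.Agent.J4.H41.DR

theorem k1 : S_K1 := by
  intro N ρ ε hε
  set ρ' : ℝ := max ρ 1 with hρ'
  have hρ1 : 1 ≤ ρ' := le_max_right _ _
  set M : ℝ := ∑ i ∈ Finset.range (N + 1), ρ' ^ i with hM
  have hM0 : 0 < M := by
    apply Finset.sum_pos
    · intro i _; positivity
    · exact ⟨0, by simp⟩
  refine ⟨ε / (2 * M), by positivity, ?_⟩
  intro A B hA hB hAB z hz
  have e1 : A.eval z = ∑ i ∈ Finset.range (N + 1), A.coeff i * z ^ i :=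
    eval_eq_sum_range' (Nat.lt_succ_of_le hA) z
  have e2 : B.eval z = ∑ i ∈ Finset.range (N + 1), B.coeff i * z ^ i :=
    eval_eq_sum_range' (Nat.lt_succ_of_le hB) z
  rw [e1, e2, ← Finset.sum_sub_distrib]
  have h1 : ‖∑ i ∈ Finset.range (N + 1), (A.coeff i * z ^ i - B.coeff i * z ^ i)‖
      ≤ ∑ i ∈ Finset.range (N + 1), ε / (2 * M) * ρ' ^ i := by
    refine (norm_sum_le _ _).trans (Finset.sum_le_sum fun i _ => ?_)
    rw [← sub_mul, norm_mul, norm_pow]
    have h2 : ‖z‖ ≤ ρ' := hz.trans (le_max_left _ _)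
    have h3 : ‖z‖ ^ i ≤ ρ' ^ i := pow_le_pow_left₀ (norm_nonneg _) h2 i
    exact mul_le_mul (hAB i).le h3 (by positivity) (by positivity)
  rw [← Finset.mul_sum, ← hM] at h1
  have h4 : ε / (2 * M) * M = ε / 2 := by field_simp
  rw [h4] at h1
  linarith

theorem k2 : S_K2 := by
  intro P hP
  have hd : 0 < (divX P).degree := by
    rw [← natDegree_pos_iff_degree_pos, natDegree_divX_eq_natDegree_tsub_one]
    omega
  have ht : Tendsto (fun z : ℂ => ‖(divX P).eval z‖) (comap norm atTop) atTop :=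
    tendsto_norm_atTop (divX P) hd tendsto_comap
  have h4 := ht.eventually_ge_atTop 4
  rw [eventually_comap] at h4
  obtain ⟨r, hr⟩ := eventually_atTop.1 h4
  refine ⟨max 1 (max (2 * r) (‖P.coeff 0‖ + 1)), le_max_left _ _, ?_⟩
  intro R hR z hz
  have hR1 : 1 ≤ R := (le_max_left _ _).trans hR
  have hR2 : 2 * r ≤ R := ((le_max_left _ _).trans (le_max_right _ _)).trans hR
  have hR3 : ‖P.coeff 0‖ + 1 ≤ R := ((le_max_right _ _).trans (le_max_right _ _)).trans hR
  have h5 : 4 ≤ ‖(divX P).eval z‖ := hr ‖z‖ (by linarith) z rfl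
  have h6 : P.eval z = (divX P).eval z * z + P.coeff 0 := by
    conv_lhs => rw [← divX_mul_X_add P]
    simp
  have h7 : ‖(divX P).eval z * z‖ ≤ ‖P.eval z‖ + ‖P.coeff 0‖ := by
    have : (divX P).eval z * z = P.eval z - P.coeff 0 := by rw [h6]; ring
    rw [this]
    exact norm_sub_le _ _
  rw [norm_mul] at h7
  have h8 : 4 * ‖z‖ ≤ ‖(divX P).eval z‖ * ‖z‖ := mul_le_mul_of_nonneg_right h5 (norm_nonneg _)
  linarith

theorem iter_shift (S : ℂ[X]) (a : ℂ) (n : ℕ) (z : ℂ) :
    (fun z => S.eval (z + a) - a)^[n] z = (map S)^[n] (z + a) - a := by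
  induction n generalizing z with
  | zero => simp
  | succ n ih =>
    rw [Function.iterate_succ_apply, Function.iterate_succ_apply, ih]
    simp [map]

theorem k8 : S_K8 := by
  intro S a R hS c hc hdc
  have hd : (derivative S).eval (c + a) = 0 := by
    have h1 : deriv (fun z => S.eval (z + a) - a) c = (derivative S).eval (c + a) := by
      rw [deriv_sub_const]
      exact (deriv_comp_add_const (fun w : ℂ => S.eval w) a c).trans (Polynomial.deriv S)
    rw [← h1]
    exact hdc
  rcases hS _ hd with h | ⟨n, hn, x, hx1, hx2, hx3⟩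
  · exfalso
    have h2 := h.eventually_gt_atTop (R + ‖a‖)
    obtain ⟨k, hk⟩ := h2.exists
    have h3 := hc k
    rw [iter_shift] at h3
    have h4 : ‖(map S)^[k] (c + a)‖ ≤ ‖(map S)^[k] (c + a) - a‖ + ‖a‖ := by
      have := norm_add_le ((map S)^[k] (c + a) - a) a
      simpa using this
    linarith
  · refine ⟨n, hn, x - a, ?_, ?_, ?_⟩
    · rw [iter_shift, sub_add_cancel, hx1]
    · have h5 : (fun z => S.eval (z + a) - a)^[n] = fun z => (map S)^[n] (z + a) - a := by
        funext z; exact iter_shift S a n z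
      rw [h5, deriv_sub_const, deriv_comp_add_const ((map S)^[n]) a (x - a), sub_add_cancel]
      exact hx2
    · have h6 : (fun k : ℕ => (fun z => S.eval (z + a) - a)^[n * k] c)
          = fun k : ℕ => (map S)^[n * k] (c + a) - a := by
        funext k; exact iter_shift S a _ c
      rw [h6]
      exact hx3.sub_const a

end Pool.Agent.J4.H41.DR
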