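import Pool.Agent.J4.H41.DR.Defs

/-! Piece K4 of project DR: a sink goes to a sink under a topological conjugacy. -/

set_option autoImplicit false

open Polynomial Filter Topology Metric

namespace Pool.Agent.J4.H41.DR

namespace K4

theorem diff_map (S : ℂ[X]) (n : ℕ) : Differentiable ℂ ((map S)^[n]) := by
  have h : Differentiable ℂ (map S) := S.differentiable
  exact h.iterate n

theorem diff_iter {f : ℂ → ℂ} {R : ℝ} {x : ℂ} (hf : DifferentiableOn ℂ f (ball 0 R))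
    (hx : Stays f R x) (n : ℕ) : DifferentiableAt ℂ (f^[n]) x := by
  induction n with
  | zero => exact differentiableAt_id
  | succ n ih =>
    rw [Function.iterate_succ']
    refine DifferentiableAt.comp x ?_ ih
    exact hf.differentiableAt (isOpen_ball.mem_nhds (by rw [mem_ball_zero_iff]; exact hx n))

theorem conj_iter {f : ℂ → ℂ} {R : ℝ} {S : ℂ[X]} {h : ℂ ≃ₜ ℂ}
    (hc : ∀ z : ℂ, ‖z‖ < R → ‖f z‖ < R → S.eval (h z) = h (f z)) {z : ℂ} (hz : Stays f R z)
    (n : ℕ) : (map S)^[n] (h z) = h (f^[n] z) := by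
  induction n with
  | zero => rfl
  | succ n ih =>
    rw [Function.iterate_succ_apply', Function.iterate_succ_apply', ih]
    have h1 := hz n
    have h2 := hz (n + 1)
    rw [Function.iterate_succ_apply'] at h2
    exact hc _ h1 h2

/-- contraction near a sink -/
theorem contr {g : ℂ → ℂ} {x : ℂ} (hg : DifferentiableAt ℂ g x) (hx : g x = x)
    (hd : ‖deriv g x‖ < 1) : ∃ q : ℝ, 0 ≤ q ∧ q < 1 ∧ ∀ᶠ z in 𝓝 x, ‖g z - x‖ ≤ q * ‖z - x‖ := by
  refine ⟨(‖deriv g x‖ + 1) / 2, by positivity, by linarith, ?_⟩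
  have h1 := (hasDerivAt_iff_isLittleO.1 hg.hasDerivAt).def (c := (1 - ‖deriv g x‖) / 2)
    (by linarith)
  filter_upwards [h1] with z hz
  rw [hx] at hz
  have e : g z - x = (g z - x - (z - x) • deriv g x) + (z - x) • deriv g x := by ring
  rw [e]
  refine (norm_add_le _ _).trans ?_
  rw [norm_smul (z - x) (deriv g x)]
  nlinarith [norm_nonneg (z - x)]

/-- the orbits near a sink -/
theorem near {f : ℂ → ℂ} {R : ℝ} {p : ℕ} {x : ℂ} (hf : DifferentiableOn ℂ f (ball 0 R))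
    (hp : 0 < p) (hx : f^[p] x = x) (hs : Stays f R x) (hd : ‖deriv (f^[p]) x‖ < 1) :
    ∃ q δ : ℝ, 0 ≤ q ∧ q < 1 ∧ 0 < δ ∧ ∀ z ∈ ball x δ, Stays f R z ∧
      ∀ k : ℕ, ‖(f^[p])^[k] z - x‖ ≤ q ^ k * ‖z - x‖ := by
  obtain ⟨q, hq0, hq1, hq⟩ := contr (diff_iter hf hs p) hx hd
  have h1 : ∀ᶠ z in 𝓝 x, ∀ j ∈ Finset.range p, ‖f^[j] z‖ < R := by
    rw [Filter.eventually_all_finset]
    intro j _
    exact ((diff_iter hf hs j).continuousAt.norm.eventually_lt continuousAt_const (hs j))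
  obtain ⟨δ, hδ, hb⟩ := Metric.eventually_nhds_iff_ball.1 (hq.and h1)
  refine ⟨q, δ, hq0, hq1, hδ, fun z hz => ?_⟩
  have h2 : ∀ k : ℕ, (f^[p])^[k] z ∈ ball x δ ∧ ‖(f^[p])^[k] z - x‖ ≤ q ^ k * ‖z - x‖ := by
    intro k
    induction k with
    | zero => simpa using hz
    | succ k ih =>
      rw [Function.iterate_succ_apply']
      obtain ⟨h3, h4⟩ := ih
      have h5 := (hb _ h3).1
      have h6 : ‖f^[p] ((f^[p])^[k] z) - x‖ ≤ q ^ (k + 1) * ‖z - x‖ := by
        refine h5.trans ?_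
        rw [pow_succ]
        nlinarith
      refine ⟨?_, h6⟩
      rw [mem_ball_iff_norm] at h3 ⊢
      refine lt_of_le_of_lt h5 ?_
      nlinarith [norm_nonneg ((f^[p])^[k] z - x)]
  refine ⟨fun n => ?_, fun k => (h2 k).2⟩
  have h3 := (hb _ (h2 (n / p)).1).2 (n % p) (Finset.mem_range.2 (Nat.mod_lt _ hp))
  rw [← Function.iterate_mul, ← Function.iterate_add_apply, Nat.mod_add_div] at h3
  exact h3

end K4

open K4 in
theorem k4 : S_K4 := by
  intro f R S h p x hf hc hp hx hs hd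
  obtain ⟨q, δ, hq0, hq1, hδ, hb⟩ := near hf hp hx hs hd
  have h0 : (map S)^[p] (h x) = h x := by
    rw [conj_iter hc hs, hx]
  refine ⟨h0, ?_⟩
  -- the iterates on the image of the ball
  have h1 : ∀ z ∈ ball x δ, ∀ k : ℕ, ((map S)^[p])^[k] (h z) = h ((f^[p])^[k] z) := by
    intro z hz k
    rw [← Function.iterate_mul, ← Function.iterate_mul]
    exact conj_iter hc (hb z hz).1 _
  have h2 : h '' ball x δ ∈ 𝓝 (h x) := h.isOpenMap.image_mem_nhds (ball_mem_nhds x hδ)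
  obtain ⟨r, hr, hr1⟩ := Metric.nhds_basis_closedBall.mem_iff.1 h2
  have hcx : ContinuousAt h x := h.continuous.continuousAt
  obtain ⟨θ, hθ, hθ1⟩ := Metric.continuousAt_iff.1 hcx (r / 2) (half_pos hr)
  obtain ⟨k, hk⟩ := exists_pow_lt_of_lt_one (div_pos hθ hδ) hq1
  have h3 : ∀ w ∈ sphere (h x) r, ‖((map S)^[p])^[k] w - h x‖ ≤ r / 2 := by
    intro w hw
    obtain ⟨z, hz, rfl⟩ := hr1 (sphere_subset_closedBall hw)
    rw [h1 z hz k]
    have h4 := (hb z hz).2 k
    have h5 : dist ((f^[p])^[k] z) x < θ := by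
      rw [dist_eq_norm]
      refine lt_of_le_of_lt h4 ?_
      have h6 : ‖z - x‖ < δ := mem_ball_iff_norm.1 hz
      rw [lt_div_iff₀ hδ] at hk
      have h7 : 0 ≤ q ^ k := by positivity
      nlinarith [norm_nonneg (z - x)]
    have h6 := hθ1 h5
    rw [dist_eq_norm] at h6
    exact h6.le
  have h4 : Differentiable ℂ (fun w => ((map S)^[p])^[k] w - h x) :=
    ((diff_map S p).iterate k).sub_const _
  have h5 := Complex.norm_deriv_le_of_forall_mem_sphere_norm_le hr h4.diffContOnCl h3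
  have h6 : HasDerivAt (((map S)^[p])^[k]) (deriv ((map S)^[p]) (h x) ^ k) (h x) :=
    HasDerivAt.iterate (h x) (diff_map S p).differentiableAt.hasDerivAt h0 k
  rw [(h6.sub_const (h x)).deriv, norm_pow] at h5
  have e : r / 2 / r = 1 / 2 := by field_simp
  rw [e] at h5
  by_contra hcon
  rw [not_lt] at hcon
  have h7 := one_le_pow₀ hcon (n := k)
  linarith

end Pool.Agent.J4.H41.DR
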