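import Pool.Agent.J4.H41.DR.Defs

/-!
# Real (rational) polynomials are semi-locally universal
-/

set_option autoImplicit false

open Polynomial Filter Topology Metric

namespace Pool.Agent.J4.H41.DR

namespace K6

lemma step_aux {x : ℂ} {t : ℝ} (h : ‖x‖ ≤ t) (ht : t ≤ 1 / 20) :
    3 * ‖x‖ ^ 2 + 2 * ‖x‖ ^ 3 ≤ t / 5 := by
  have h0 := norm_nonneg x
  have h1 : ‖x‖ ≤ 1 / 20 := h.trans ht
  have h2 : ‖x‖ ^ 2 ≤ 1 / 20 * ‖x‖ := by rw [pow_two]; exact mul_le_mul_of_nonneg_right h1 h0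
  have h3 : ‖x‖ ^ 3 ≤ 1 / 20 * ‖x‖ := by
    calc ‖x‖ ^ 3 = ‖x‖ ^ 2 * ‖x‖ := by ring
      _ ≤ (1 / 20 * ‖x‖) * ‖x‖ := mul_le_mul_of_nonneg_right h2 h0
      _ ≤ (1 / 20 * 1) * ‖x‖ := by
          refine mul_le_mul_of_nonneg_right ?_ h0
          linarith
      _ = _ := by ring
  have h4 : ‖x‖ ^ 3 ≤ 1 / 20 * ‖x‖ ^ 2 := by
    calc ‖x‖ ^ 3 = ‖x‖ * ‖x‖ ^ 2 := by ring
      _ ≤ _ := mul_le_mul_of_nonneg_right h1 (by positivity)
  linarith

lemma step_low {x : ℂ} {t : ℝ} (h : ‖x‖ ≤ t) (ht : t ≤ 1 / 20) :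
    ‖3 * x ^ 2 - 2 * x ^ 3‖ ≤ t / 5 := by
  refine le_trans (norm_sub_le _ _) ?_
  rw [norm_mul, norm_mul, norm_pow, norm_pow]
  have e1 : ‖(3 : ℂ)‖ = 3 := by simp
  have e2 : ‖(2 : ℂ)‖ = 2 := by simp
  rw [e1, e2]
  exact step_aux h ht

lemma step_up {x : ℂ} {t : ℝ} (h : ‖x - 1‖ ≤ t) (ht : t ≤ 1 / 20) :
    ‖3 * x ^ 2 - 2 * x ^ 3 - 1‖ ≤ t / 5 := by
  have e : 3 * x ^ 2 - 2 * x ^ 3 - 1 = -(3 * (x - 1) ^ 2 + 2 * (x - 1) ^ 3) := by ring
  rw [e, norm_neg]
  refine le_trans (norm_add_le _ _) ?_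
  rw [norm_mul, norm_mul, norm_pow, norm_pow]
  have e1 : ‖(3 : ℂ)‖ = 3 := by simp
  have e2 : ‖(2 : ℂ)‖ = 2 := by simp
  rw [e1, e2]
  exact step_aux h ht

/-- the polynomials which are near `1` on the upper disc and near `0` on the lower disc -/
noncomputable def U (L : ℝ) : ℕ → ℂ[X]
  | 0 => C (1 / 2) - C (Complex.I / (2 * L)) * X
  | n + 1 => C 3 * U L n ^ 2 - C 2 * U L n ^ 3

lemma U_zero (L : ℝ) (w : ℂ) : (U L 0).eval w = 1 / 2 - Complex.I / (2 * L) * w := by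
  simp [U]

lemma U_succ (L : ℝ) (n : ℕ) (w : ℂ) :
    (U L (n + 1)).eval w = 3 * (U L n).eval w ^ 2 - 2 * (U L n).eval w ^ 3 := by
  simp [U]

lemma norm_coef {R L : ℝ} (hR : 0 < R) (hL : L = 10 * R) {v : ℂ} (h : ‖v‖ ≤ R) :
    ‖-(Complex.I / (2 * L)) * v‖ ≤ 1 / 20 := by
  have hL0 : 0 < L := by rw [hL]; positivity
  rw [norm_mul, norm_neg, norm_div, Complex.norm_I, norm_mul, Complex.norm_real,
    Real.norm_of_nonneg hL0.le]
  have e2 : ‖(2 : ℂ)‖ = 2 := by simp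
  rw [e2, hL]
  calc 1 / (2 * (10 * R)) * ‖v‖ ≤ 1 / (2 * (10 * R)) * R :=
        mul_le_mul_of_nonneg_left h (by positivity)
    _ = 1 / 20 := by field_simp; norm_num

lemma low {R L : ℝ} (hR : 0 < R) (hL : L = 10 * R) {w : ℂ} (h : ‖w + L * Complex.I‖ ≤ R) (n : ℕ) :
    ‖(U L n).eval w‖ ≤ 1 / 20 * (1 / 5) ^ n := by
  have hL0 : (L : ℂ) ≠ 0 := by
    have : 0 < L := by rw [hL]; positivity
    exact_mod_cast this.ne'
  induction n with
  | zero =>
    have e : (U L 0).eval w = -(Complex.I / (2 * L)) * (w + L * Complex.I) := by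
      rw [U_zero]
      field_simp
      ring_nf
      rw [Complex.I_sq]
      ring
    rw [e, pow_zero, mul_one]
    exact norm_coef hR hL h
  | succ n ih =>
    rw [U_succ]
    refine (step_low ih ?_).trans (le_of_eq (by ring))
    have : (1 / 5 : ℝ) ^ n ≤ 1 := pow_le_one₀ (by norm_num) (by norm_num)
    linarith

lemma up {R L : ℝ} (hR : 0 < R) (hL : L = 10 * R) {w : ℂ} (h : ‖w - L * Complex.I‖ ≤ R) (n : ℕ) :
    ‖(U L n).eval w - 1‖ ≤ 1 / 20 * (1 / 5) ^ n := by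
  have hL0 : (L : ℂ) ≠ 0 := by
    have : 0 < L := by rw [hL]; positivity
    exact_mod_cast this.ne'
  induction n with
  | zero =>
    have e : (U L 0).eval w - 1 = -(Complex.I / (2 * L)) * (w - L * Complex.I) := by
      rw [U_zero]
      field_simp
      ring_nf
      rw [Complex.I_sq]
      ring
    rw [e, pow_zero, mul_one]
    exact norm_coef hR hL h
  | succ n ih =>
    rw [U_succ]
    refine (step_up ih ?_).trans (le_of_eq (by ring))
    have : (1 / 5 : ℝ) ^ n ≤ 1 := pow_le_one₀ (by norm_num) (by norm_num)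
    linarith

/-- a polynomial is bounded on discs -/
lemma bdd (G : ℂ[X]) (ρ : ℝ) : ∃ M : ℝ, 0 < M ∧ ∀ w : ℂ, ‖w‖ ≤ ρ → ‖G.eval w‖ ≤ M := by
  obtain ⟨M, hM⟩ := (isCompact_closedBall (0 : ℂ) ρ).exists_bound_of_continuousOn
    (f := fun w => G.eval w) G.continuous.continuousOn
  refine ⟨max M 1, by positivity, fun w hw => ?_⟩
  refine (hM w ?_).trans (le_max_left _ _)
  rw [mem_closedBall, dist_zero_right]
  exact hw

/-- the polynomial with the conjugate coefficients -/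
lemma eval_star (A : ℂ[X]) (w : ℂ) :
    (A.map (starRingEnd ℂ)).eval w = starRingEnd ℂ (A.eval (starRingEnd ℂ w)) := by
  have h := Polynomial.eval_map_apply (p := A) (f := starRingEnd ℂ) (starRingEnd ℂ w)
  rw [Complex.conj_conj] at h
  exact h

/-- rational approximation -/
lemma approx (B : ℂ[X]) (hB : ∀ i, (B.coeff i).im = 0) {ρ δ : ℝ} (hδ : 0 < δ) {D : ℕ}
    (hD : B.natDegree < D) : ∃ T : ℚ[X], T.natDegree = D ∧ ∀ w : ℂ, ‖w‖ ≤ ρ →
    ‖(T.map (algebraMap ℚ ℂ)).eval w - B.eval w‖ < δ := by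
  obtain ⟨τ, hτ⟩ : ∃ τ : ℝ, τ = δ / 2 / (∑ i ∈ Finset.range (D + 1), |ρ| ^ i) := ⟨_, rfl⟩
  have hS1 : 1 ≤ ∑ i ∈ Finset.range (D + 1), |ρ| ^ i := by
    calc (1 : ℝ) = |ρ| ^ 0 := by simp
      _ ≤ _ := Finset.single_le_sum (f := fun i => |ρ| ^ i) (fun i _ => by positivity)
        (Finset.mem_range.2 (Nat.succ_pos D))
  have hτ0 : 0 < τ := by rw [hτ]; positivity
  have hr : ∀ x : ℝ, ∃ r : ℚ, |(r : ℝ) - x| < τ := by
    intro x
    obtain ⟨r, h1, h2⟩ := exists_rat_btwn (show x - τ < x + τ by linarith)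
    exact ⟨r, by rw [abs_lt]; constructor <;> linarith⟩
  choose r hr using hr
  obtain ⟨κ, hκ0, hκ⟩ := exists_rat_btwn hτ0
  have hκ0' : (0 : ℚ) < κ := by exact_mod_cast hκ0
  obtain ⟨b, hb⟩ : ∃ b : ℕ → ℚ, b = fun i => if i = D then κ else r (B.coeff i).re := ⟨_, rfl⟩
  refine ⟨∑ i ∈ Finset.range (D + 1), Polynomial.C (b i) * Polynomial.X ^ i, ?_, ?_⟩
  · apply le_antisymm
    · refine Polynomial.natDegree_sum_le_of_forall_le _ _ fun i hi => ?_
      refine (Polynomial.natDegree_C_mul_X_pow_le _ _).trans ?_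
      exact Nat.lt_succ_iff.1 (Finset.mem_range.1 hi)
    · apply Polynomial.le_natDegree_of_ne_zero
      rw [Polynomial.finsetSum_coeff]
      simp only [Polynomial.coeff_C_mul, Polynomial.coeff_X_pow]
      rw [Finset.sum_eq_single D]
      · simp [hb, hκ0'.ne']
      · intro i _ hi
        simp [Ne.symm hi]
      · intro h
        exact absurd (Finset.mem_range.2 (Nat.lt_succ_self D)) h
  · intro w hw
    have e1 : ((∑ i ∈ Finset.range (D + 1), Polynomial.C (b i) * Polynomial.X ^ i).map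
        (algebraMap ℚ ℂ)).eval w = ∑ i ∈ Finset.range (D + 1), ((b i : ℚ) : ℂ) * w ^ i := by
      rw [Polynomial.map_sum, Polynomial.eval_finsetSum]
      refine Finset.sum_congr rfl fun i _ => ?_
      simp
    have e2 : B.eval w = ∑ i ∈ Finset.range (D + 1), B.coeff i * w ^ i :=
      Polynomial.eval_eq_sum_range' (by omega) w
    rw [e1, e2, ← Finset.sum_sub_distrib]
    have hterm : ∀ i ∈ Finset.range (D + 1),
        ‖((b i : ℚ) : ℂ) * w ^ i - B.coeff i * w ^ i‖ ≤ τ * |ρ| ^ i := by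
      intro i _
      rw [← sub_mul, norm_mul, norm_pow]
      have hw' : ‖w‖ ≤ |ρ| := hw.trans (le_abs_self _)
      have h1 : ‖((b i : ℚ) : ℂ) - B.coeff i‖ ≤ τ := by
        by_cases hi : i = D
        · have h0 : B.coeff i = 0 := Polynomial.coeff_eq_zero_of_natDegree_lt (by omega)
          rw [h0, sub_zero, hb]
          simp only [hi, if_true]
          have : ‖((κ : ℚ) : ℂ)‖ = κ := by
            have h2 : ((κ : ℚ) : ℂ) = (((κ : ℚ) : ℝ) : ℂ) := by push_cast; rfl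
            rw [h2, Complex.norm_real, Real.norm_of_nonneg hκ0.le]
          rw [this]
          exact hκ.le
        · rw [hb]
          simp only [hi, if_false]
          have h2 : B.coeff i = (((B.coeff i).re : ℝ) : ℂ) := by
            apply Complex.ext
            · simp
            · simp [hB i]
          have h3 : ((r (B.coeff i).re : ℚ) : ℂ) - B.coeff i =
              (((r (B.coeff i).re : ℚ) : ℝ) - (B.coeff i).re : ℝ) := by
            conv_lhs => rw [h2]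
            push_cast
            simp
          rw [h3, Complex.norm_real]
          exact (hr _).le
      exact mul_le_mul h1 (pow_le_pow_left₀ (norm_nonneg _) hw' i) (by positivity) hτ0.le
    refine lt_of_le_of_lt (norm_sum_le_of_le _ hterm) ?_
    rw [← Finset.mul_sum, hτ, div_mul_cancel₀ _ (by positivity)]
    linarith

end K6

open K6 in
/-- K6 -/
theorem k6 : S_K6 := by
  intro P R ε hR hε
  obtain ⟨L, hL⟩ : ∃ L : ℝ, L = 10 * R := ⟨_, rfl⟩
  obtain ⟨G, hG⟩ : ∃ G : ℂ[X], G = C (L * Complex.I) + P.comp (X - C (L * Complex.I)) := ⟨_, rfl⟩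
  have hL0 : 0 < L := by rw [hL]; positivity
  obtain ⟨M, hM0, hM⟩ := bdd G (R + L)
  obtain ⟨n, hn⟩ := exists_pow_lt_of_lt_one (show (0 : ℝ) < ε / (2 * M) by positivity)
    (show (1 / 5 : ℝ) < 1 by norm_num)
  obtain ⟨A, hA⟩ : ∃ A : ℂ[X], A = U L n * G := ⟨_, rfl⟩
  refine ⟨L, (A + A.map (starRingEnd ℂ)).natDegree + 1, fun D hD => ?_⟩
  obtain ⟨T, hT1, hT2⟩ := approx (A + A.map (starRingEnd ℂ)) (fun i => by
    rw [coeff_add, coeff_map, Complex.add_im, Complex.conj_im]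
    ring) (ρ := R + L) (show 0 < ε / 2 by positivity) (D := D) (by omega)
  refine ⟨T, hT1, fun z hz => ?_⟩
  obtain ⟨w, hw⟩ : ∃ w, w = z + L * Complex.I := ⟨_, rfl⟩
  have hwn : ‖w‖ ≤ R + L := by
    rw [hw]
    refine (norm_add_le _ _).trans ?_
    rw [norm_mul, Complex.norm_I, Complex.norm_real, Real.norm_of_nonneg hL0.le]
    linarith
  have hGe : G.eval w = L * Complex.I + P.eval z := by
    rw [hG, hw]
    simp
  have hu : ‖(U L n).eval w - 1‖ ≤ 1 / 20 * (1 / 5) ^ n := by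
    refine up hR hL ?_ n
    rw [hw, add_sub_cancel_right]
    exact hz
  have hl : ‖(U L n).eval (starRingEnd ℂ w)‖ ≤ 1 / 20 * (1 / 5) ^ n := by
    refine low hR hL ?_ n
    have e : starRingEnd ℂ w + L * Complex.I = starRingEnd ℂ z := by
      rw [hw, map_add, map_mul, Complex.conj_I, Complex.conj_ofReal]
      ring
    rw [e, RCLike.norm_conj]
    exact hz
  have h1 := hT2 w hwn
  have h2 : ‖(A + A.map (starRingEnd ℂ)).eval w - G.eval w‖ ≤ ε / 2 := by
    have e : (A + A.map (starRingEnd ℂ)).eval w - G.eval w =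
        ((U L n).eval w - 1) * G.eval w +
          starRingEnd ℂ ((U L n).eval (starRingEnd ℂ w) * G.eval (starRingEnd ℂ w)) := by
      rw [eval_add, eval_star, hA, eval_mul, eval_mul]
      ring
    rw [e]
    refine (norm_add_le _ _).trans ?_
    rw [norm_mul, RCLike.norm_conj, norm_mul]
    have g1 := hM w hwn
    have g2 := hM (starRingEnd ℂ w) (by rw [RCLike.norm_conj]; exact hwn)
    have p0 : (0 : ℝ) ≤ 1 / 20 * (1 / 5) ^ n := by positivity
    have k1 := mul_le_mul hu g1 (norm_nonneg _) p0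
    have k2 := mul_le_mul hl g2 (norm_nonneg _) p0
    have k3 : (1 / 5 : ℝ) ^ n * M ≤ ε / 2 := by
      have k4 := mul_le_mul_of_nonneg_right hn.le hM0.le
      refine k4.trans (le_of_eq ?_)
      field_simp
    have k5 : (0 : ℝ) ≤ (1 / 5 : ℝ) ^ n * M := by positivity
    linarith
  have e3 : (T.map (algebraMap ℚ ℂ)).eval (z + L * Complex.I) - L * Complex.I - P.eval z =
      ((T.map (algebraMap ℚ ℂ)).eval w - (A + A.map (starRingEnd ℂ)).eval w) +
        ((A + A.map (starRingEnd ℂ)).eval w - G.eval w) := by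
    rw [hGe, ← hw]
    ring
  rw [e3]
  refine lt_of_le_of_lt (norm_add_le _ _) ?_
  linarith

end Pool.Agent.J4.H41.DR
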