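import Pool.Agent.J4.H41.DR.Defs

/-!
Project DR, piece K6 (copy by helper66): rational polynomials are semi-locally universal.
-/

set_option autoImplicit false

open Polynomial Filter Topology Metric

namespace Pool.Agent.J4.H41.DR

namespace K6

/-- the smooth step -/
noncomputable def s (x : ℂ) : ℂ := 3 * x ^ 2 - 2 * x ^ 3

lemma s_small {x : ℂ} (hx : ‖x‖ ≤ 1 / 20) : ‖s x‖ ≤ ‖x‖ / 5 := by
  have h0 := norm_nonneg x
  have h1 : ‖s x‖ ≤ 3 * ‖x‖ ^ 2 + 2 * ‖x‖ ^ 3 := by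
    unfold s
    refine (norm_sub_le _ _).trans ?_
    rw [norm_mul, norm_mul, norm_pow, norm_pow]
    simp
  have h2 : ‖x‖ ^ 2 ≤ ‖x‖ * (1 / 20) := by nlinarith
  have h3 : ‖x‖ ^ 3 ≤ ‖x‖ * (1 / 400) := by
    have : ‖x‖ ^ 3 = ‖x‖ ^ 2 * ‖x‖ := by ring
    rw [this]
    nlinarith
  linarith

lemma iter_small (n : ℕ) {x : ℂ} (hx : ‖x‖ ≤ 1 / 20) : ‖s^[n] x‖ ≤ (1 / 5) ^ n * (1 / 20) := by
  induction n with
  | zero => simpa using hx
  | succ n ih =>
    rw [Function.iterate_succ_apply']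
    have h1 : ((1 : ℝ) / 5) ^ n ≤ 1 := pow_le_one₀ (by norm_num) (by norm_num)
    have h2 : ‖s^[n] x‖ ≤ 1 / 20 := ih.trans (by linarith)
    refine (s_small h2).trans ?_
    rw [pow_succ]
    linarith

lemma s_symm (x : ℂ) : s (1 - x) = 1 - s x := by
  unfold s; ring

lemma iter_symm (n : ℕ) (x : ℂ) : s^[n] (1 - x) = 1 - s^[n] x := by
  induction n with
  | zero => rfl
  | succ n ih => rw [Function.iterate_succ_apply', Function.iterate_succ_apply', ih, s_symm]

/-- the iterates of the smooth step at a polynomial -/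
noncomputable def u (q : ℂ[X]) : ℕ → ℂ[X]
  | 0 => q
  | n + 1 => 3 * (u q n) ^ 2 - 2 * (u q n) ^ 3

lemma eval_u (q : ℂ[X]) (n : ℕ) (z : ℂ) : (u q n).eval z = s^[n] (q.eval z) := by
  induction n with
  | zero => rfl
  | succ n ih =>
    rw [Function.iterate_succ_apply', ← ih]
    simp [u, s]

lemma eval_conj (A : ℂ[X]) (z : ℂ) :
    (A.map (starRingEnd ℂ)).eval z = (starRingEnd ℂ) (A.eval ((starRingEnd ℂ) z)) := by
  have h := Polynomial.eval₂_at_apply (p := A) (starRingEnd ℂ) ((starRingEnd ℂ) z)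
  rw [Complex.conj_conj] at h
  rw [Polynomial.eval_map, h]

/-- rational approximation with a prescribed large degree -/
lemma rat_approx (A : ℂ[X]) (hA : ∀ i, (A.coeff i).im = 0) (ρ ε : ℝ) (hρ : 0 < ρ) (hε : 0 < ε)
    (D : ℕ) (hD : A.natDegree + 1 ≤ D) : ∃ T : ℚ[X], T.natDegree = D ∧ ∀ z : ℂ, ‖z‖ ≤ ρ →
      ‖(T.map (algebraMap ℚ ℂ)).eval z - A.eval z‖ < ε := by
  set N := A.natDegree + 1 with hN
  set Sg : ℝ := ∑ i ∈ Finset.range N, ρ ^ i with hSg
  have hSg0 : 0 ≤ Sg := Finset.sum_nonneg fun i _ => (pow_pos hρ i).le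
  have hτ : 0 < ε / 4 / (Sg + 1) := by positivity
  have h1 : ∀ i, ∃ r : ℚ, |(r : ℝ) - (A.coeff i).re| < ε / 4 / (Sg + 1) := by
    intro i
    obtain ⟨r, hr1, hr2⟩ := exists_rat_btwn (show (A.coeff i).re < (A.coeff i).re + ε / 4 / (Sg + 1) by linarith)
    exact ⟨r, by rw [abs_lt]; constructor <;> linarith⟩
  choose r hr using h1
  obtain ⟨κ, hκ0, hκ1⟩ := exists_rat_btwn (show (0 : ℝ) < ε / 4 / (ρ ^ D + 1) by positivity)
  have hκ0' : (0 : ℚ) < κ := by exact_mod_cast hκ0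
  refine ⟨(∑ i ∈ Finset.range N, C (r i) * X ^ i) + C κ * X ^ D, ?_, fun z hz => ?_⟩
  · have h2 : (C κ * X ^ D : ℚ[X]).natDegree = D := natDegree_C_mul_X_pow D κ hκ0'.ne'
    have h3 : (∑ i ∈ Finset.range N, C (r i) * X ^ i : ℚ[X]).natDegree ≤ N - 1 := by
      refine natDegree_sum_le_of_forall_le _ _ fun i hi => ?_
      rw [Finset.mem_range] at hi
      exact (natDegree_C_mul_X_pow_le _ _).trans (by omega)
    rw [natDegree_add_eq_right_of_natDegree_lt, h2]
    rw [h2]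
    omega
  · have h4 : A.eval z = ∑ i ∈ Finset.range N, A.coeff i * z ^ i := eval_eq_sum_range z
    have h5 : (((∑ i ∈ Finset.range N, C (r i) * X ^ i) + C κ * X ^ D : ℚ[X]).map
        (algebraMap ℚ ℂ)).eval z = (∑ i ∈ Finset.range N, (r i : ℂ) * z ^ i) + (κ : ℂ) * z ^ D := by
      simp [Polynomial.map_sum, eval_finset_sum]
    rw [h5, h4, add_sub_right_comm, ← Finset.sum_sub_distrib]
    have h6 : ‖∑ i ∈ Finset.range N, ((r i : ℂ) * z ^ i - A.coeff i * z ^ i)‖ ≤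
        ε / 4 / (Sg + 1) * Sg := by
      refine (norm_sum_le _ _).trans ?_
      rw [hSg, Finset.mul_sum]
      refine Finset.sum_le_sum fun i _ => ?_
      rw [← sub_mul, norm_mul, norm_pow]
      have h7 : ‖(r i : ℂ) - A.coeff i‖ ≤ ε / 4 / (Sg + 1) := by
        have h8 : (r i : ℂ) - A.coeff i = (((r i : ℝ) - (A.coeff i).re : ℝ) : ℂ) := by
          apply Complex.ext
          · simp
          · simp [hA i]
        rw [h8, Complex.norm_real, Real.norm_eq_abs]
        exact (hr i).le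
      exact mul_le_mul h7 (pow_le_pow_left₀ (norm_nonneg _) hz _) (by positivity) hτ.le
    have h9 : ‖(κ : ℂ) * z ^ D‖ ≤ ε / 4 / (ρ ^ D + 1) * ρ ^ D := by
      rw [norm_mul, norm_pow]
      have h10 : ‖(κ : ℂ)‖ = (κ : ℝ) := by
        have : (κ : ℂ) = ((κ : ℝ) : ℂ) := by simp
        rw [this, Complex.norm_real, Real.norm_eq_abs, abs_of_pos hκ0]
      rw [h10]
      exact mul_le_mul hκ1.le (pow_le_pow_left₀ (norm_nonneg _) hz _) (by positivity)
        (by positivity)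
    have h11 : ε / 4 / (Sg + 1) * Sg ≤ ε / 4 := by
      rw [div_mul_eq_mul_div, div_le_iff₀ (by positivity)]
      nlinarith
    have h12 : ε / 4 / (ρ ^ D + 1) * ρ ^ D ≤ ε / 4 := by
      have : 0 < ρ ^ D := pow_pos hρ D
      rw [div_mul_eq_mul_div, div_le_iff₀ (by positivity)]
      nlinarith
    calc _ ≤ ‖∑ i ∈ Finset.range N, ((r i : ℂ) * z ^ i - A.coeff i * z ^ i)‖ +
          ‖(κ : ℂ) * z ^ D‖ := norm_add_le _ _
      _ ≤ ε / 4 + ε / 4 := by linarith
      _ < ε := by linarith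

end K6

theorem k6 : S_K6 := by
  intro P R ε hR hε
  obtain ⟨L, hL⟩ : ∃ L : ℝ, L = 10 * R := ⟨_, rfl⟩
  have hL0 : 0 < L := by rw [hL]; linarith
  obtain ⟨M0, hM0⟩ := (isCompact_closedBall (0 : ℂ) (R + 2 * L)).exists_bound_of_continuousOn
    (f := fun v => P.eval v) P.continuous.continuousOn
  obtain ⟨M, hM⟩ : ∃ M : ℝ, M = L + |M0| + 1 := ⟨_, rfl⟩
  have hMpos : 0 < M := by rw [hM]; positivity
  have hP : ∀ v : ℂ, ‖v‖ ≤ R + 2 * L → ‖(L : ℂ) * Complex.I + P.eval v‖ ≤ M := by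
    intro v hv
    refine (norm_add_le _ _).trans ?_
    have h1 : ‖(L : ℂ) * Complex.I‖ = L := by
      rw [norm_mul, Complex.norm_I, mul_one, Complex.norm_real, Real.norm_eq_abs, abs_of_pos hL0]
    have h2 := hM0 v (by simpa using hv)
    rw [h1, hM]
    have h3 := le_abs_self M0
    linarith
  -- the number of iterates
  obtain ⟨n, hn⟩ := exists_pow_lt_of_lt_one (show (0 : ℝ) < ε / 4 / M by positivity)
    (show (1 / 5 : ℝ) < 1 by norm_num)
  have hn' : (1 / 5 : ℝ) ^ n * (1 / 20) * M < ε / 4 := by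
    rw [lt_div_iff₀ hMpos] at hn
    have : 0 ≤ (1 / 5 : ℝ) ^ n * M := by positivity
    nlinarith
  obtain ⟨q, hq⟩ : ∃ q : ℂ[X], q = C (1 / 2) - C (Complex.I / (2 * L)) * X := ⟨_, rfl⟩
  have hLC : (L : ℂ) ≠ 0 := by exact_mod_cast hL0.ne'
  have hI := Complex.I_mul_I
  have hqv : ∀ z, q.eval z = 1 / 2 - Complex.I / (2 * L) * z := by
    intro z; rw [hq]; simp
  have hq1 : ∀ w : ℂ, q.eval (w + L * Complex.I) = 1 - Complex.I / (2 * L) * w := by
    intro w
    rw [hqv]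
    field_simp
    linear_combination (-(L : ℂ)) * hI
  have hq2 : ∀ w : ℂ, q.eval (w - L * Complex.I) = - (Complex.I / (2 * L) * w) := by
    intro w
    rw [hqv]
    field_simp
    linear_combination ((L : ℂ)) * hI
  have hsm : ∀ w : ℂ, ‖w‖ ≤ R → ‖Complex.I / (2 * L) * w‖ ≤ 1 / 20 := by
    intro w hw
    rw [norm_mul, norm_div, Complex.norm_I, norm_mul, Complex.norm_real, Real.norm_eq_abs,
      abs_of_pos hL0, Complex.norm_ofNat, div_mul_eq_mul_div, one_mul, div_le_iff₀ (by positivity)]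
    rw [hL]; linarith
  obtain ⟨G, hG⟩ : ∃ G : ℂ[X], G = C ((L : ℂ) * Complex.I) + P.comp (X - C ((L : ℂ) * Complex.I)) :=
    ⟨_, rfl⟩
  have hGv : ∀ z, G.eval z = (L : ℂ) * Complex.I + P.eval (z - L * Complex.I) := by
    intro z; rw [hG]; simp
  obtain ⟨A, hA⟩ : ∃ A : ℂ[X], A = K6.u q n * G := ⟨_, rfl⟩
  obtain ⟨B, hB⟩ : ∃ B : ℂ[X], B = A + A.map (starRingEnd ℂ) := ⟨_, rfl⟩
  have hBi : ∀ i, (B.coeff i).im = 0 := by
    intro i; rw [hB]; simp
  refine ⟨L, B.natDegree + 1, fun D hD => ?_⟩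
  obtain ⟨T, hT, hTz⟩ := K6.rat_approx B hBi (R + L) (ε / 4) (by linarith) (by linarith) D hD
  refine ⟨T, hT, fun z hz => ?_⟩
  have hLI : ‖(L : ℂ) * Complex.I‖ = L := by
    rw [norm_mul, Complex.norm_I, mul_one, Complex.norm_real, Real.norm_eq_abs, abs_of_pos hL0]
  have hz1 : ‖z + L * Complex.I‖ ≤ R + L := by
    refine (norm_add_le _ _).trans ?_
    rw [hLI]; linarith
  have h1 := hTz _ hz1
  -- the upper disc
  have h2 : ‖A.eval (z + L * Complex.I) - G.eval (z + L * Complex.I)‖ ≤ ε / 4 := by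
    have e1 : A.eval (z + L * Complex.I) - G.eval (z + L * Complex.I) =
        - (K6.s^[n] (Complex.I / (2 * L) * z) * G.eval (z + L * Complex.I)) := by
      rw [hA, eval_mul, K6.eval_u, hq1, K6.iter_symm]; ring
    rw [e1, norm_neg, norm_mul]
    have h3 := K6.iter_small n (hsm z hz)
    have h4 : ‖G.eval (z + L * Complex.I)‖ ≤ M := by
      rw [hGv]
      apply hP
      rw [add_sub_cancel_right]
      linarith
    exact (mul_le_mul h3 h4 (norm_nonneg _) (by positivity)).trans hn'.le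
  have h5 : ‖(A.map (starRingEnd ℂ)).eval (z + L * Complex.I)‖ ≤ ε / 4 := by
    rw [K6.eval_conj, RCLike.norm_conj]
    have e2 : (starRingEnd ℂ) (z + L * Complex.I) = (starRingEnd ℂ) z - L * Complex.I := by
      simp [map_add, map_mul, sub_eq_add_neg]
    have hcz : ‖(starRingEnd ℂ) z‖ ≤ R := by rw [RCLike.norm_conj]; exact hz
    rw [e2, hA, eval_mul, K6.eval_u, hq2, norm_mul]
    have h3 := K6.iter_small n (x := -(Complex.I / (2 * L) * (starRingEnd ℂ) z))
      (by rw [norm_neg]; exact hsm _ hcz)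
    have h4 : ‖G.eval ((starRingEnd ℂ) z - L * Complex.I)‖ ≤ M := by
      rw [hGv]
      apply hP
      refine (norm_sub_le _ _).trans ?_
      have := norm_sub_le ((starRingEnd ℂ) z) (L * Complex.I)
      rw [hLI] at this ⊢
      linarith
    exact (mul_le_mul h3 h4 (norm_nonneg _) (by positivity)).trans hn'.le
  have h6 : G.eval (z + L * Complex.I) = (L : ℂ) * Complex.I + P.eval z := by
    rw [hGv, add_sub_cancel_right]
  have h7 : B.eval (z + L * Complex.I) = A.eval (z + L * Complex.I) +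
      (A.map (starRingEnd ℂ)).eval (z + L * Complex.I) := by rw [hB, eval_add]
  have e3 : (T.map (algebraMap ℚ ℂ)).eval (z + L * Complex.I) - L * Complex.I - P.eval z =
      ((T.map (algebraMap ℚ ℂ)).eval (z + L * Complex.I) - B.eval (z + L * Complex.I)) +
      (A.eval (z + L * Complex.I) - G.eval (z + L * Complex.I)) +
      (A.map (starRingEnd ℂ)).eval (z + L * Complex.I) := by
    rw [h7, h6]; ring
  rw [e3]
  refine (norm_add_le _ _).trans_lt ?_
  have h8 := norm_add_le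
    ((T.map (algebraMap ℚ ℂ)).eval (z + L * Complex.I) - B.eval (z + L * Complex.I))
    (A.eval (z + L * Complex.I) - G.eval (z + L * Complex.I))
  linarith

end Pool.Agent.J4.H41.DR
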