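import Pool.Agent.J4.H41.DR.Fin

set_option autoImplicit false

open Polynomial Filter Topology Metric

namespace Pool.Agent.J4.H41.DR

/-- The rational function `A / B` as a map (outside the zeros of `B`). -/
noncomputable def rmap (A B : ℂ[X]) : ℂ → ℂ := fun z => A.eval z / B.eval z

/-- Every critical point of the rational function `A / B` in the plane whose orbit is bounded and
avoids the poles is attracted by a sink in the plane. (The hyperbolic rational functions have this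
property.) -/
def RatHyp (A B : ℂ[X]) : Prop :=
  ∀ c : ℂ, (∃ M : ℝ, ∀ n : ℕ, ‖(rmap A B)^[n] c‖ ≤ M ∧ B.eval ((rmap A B)^[n] c) ≠ 0) →
    deriv (rmap A B) c = 0 → Attracted (rmap A B) c

/-- `P` is a limit, coefficient by coefficient, of rational functions of degree `D` with the
property `RatHyp`. -/
def RatLimitIn (D : ℕ) (P : ℂ[X]) : Prop :=
  ∀ ε : ℝ, 0 < ε → ∃ A B : ℂ[X], IsCoprime A B ∧ max A.natDegree B.natDegree = D ∧
    (∀ i : ℕ, ‖A.coeff i - P.coeff i‖ < ε) ∧ (∀ i : ℕ, ‖B.coeff i - (1 : ℂ[X]).coeff i‖ < ε) ∧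
    RatHyp A B

/-- The rational functions with `RatHyp` are dense among those of degree `D`. -/
def RatDenseIn (D : ℕ) : Prop :=
  ∀ A B : ℂ[X], IsCoprime A B → max A.natDegree B.natDegree = D → ∀ ε : ℝ, 0 < ε →
    ∃ A' B' : ℂ[X], IsCoprime A' B' ∧ max A'.natDegree B'.natDegree = D ∧
      (∀ i : ℕ, ‖A'.coeff i - A.coeff i‖ < ε) ∧ (∀ i : ℕ, ‖B'.coeff i - B.coeff i‖ < ε) ∧
      RatHyp A' B'

/-- closeness on discs -/
theorem k9 (P : ℂ[X]) (N : ℕ) (ρ ε : ℝ) (hε : 0 < ε) : ∃ τ : ℝ, 0 < τ ∧ ∀ A B : ℂ[X],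
    A.natDegree ≤ N → B.natDegree ≤ N → (∀ i : ℕ, ‖A.coeff i - P.coeff i‖ < τ) →
    (∀ i : ℕ, ‖B.coeff i - (1 : ℂ[X]).coeff i‖ < τ) →
    ∀ z : ℂ, ‖z‖ ≤ ρ → B.eval z ≠ 0 ∧ ‖rmap A B z - P.eval z‖ < ε := by
  -- a bound for `P` on the disc
  obtain ⟨M, hM⟩ : ∃ M : ℝ, ∀ z : ℂ, ‖z‖ ≤ ρ → ‖P.eval z‖ ≤ M := by
    obtain ⟨M, hM⟩ := (isCompact_closedBall (0 : ℂ) ρ).exists_bound_of_continuousOn
      (f := fun z => P.eval z) P.continuous.continuousOn
    exact ⟨M, fun z hz => hM z (by rwa [mem_closedBall_zero_iff])⟩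
  set M' : ℝ := max M 0 with hM'
  have hM0 : 0 ≤ M' := le_max_right _ _
  set e : ℝ := min (1 / 2) (ε / (4 * (M' + 1))) with he
  have he0 : 0 < e := by
    rw [he]
    exact lt_min (by norm_num) (by positivity)
  obtain ⟨τ₁, hτ₁, h1⟩ := k1 (max N P.natDegree) ρ (ε / 4) (by positivity)
  obtain ⟨τ₂, hτ₂, h2⟩ := k1 N ρ e he0
  refine ⟨min τ₁ τ₂, lt_min hτ₁ hτ₂, ?_⟩
  intro A B hA hB hAP hB1 z hz
  have e1 := h1 A P (hA.trans (le_max_left _ _)) (le_max_right _ _)
    (fun i => (hAP i).trans_le (min_le_left _ _)) z hz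
  have e2 := h2 B 1 hB (by simp) (fun i => (hB1 i).trans_le (min_le_right _ _)) z hz
  rw [eval_one] at e2
  have e3 : ‖B.eval z - 1‖ < 1 / 2 := e2.trans_le (min_le_left _ _)
  have e4 : ‖B.eval z - 1‖ < ε / (4 * (M' + 1)) := e2.trans_le (min_le_right _ _)
  have hPz : ‖P.eval z‖ ≤ M' := (hM z hz).trans (le_max_left _ _)
  have e5 : 1 / 2 < ‖B.eval z‖ := by
    have h3 : (1 : ℝ) ≤ ‖B.eval z‖ + ‖B.eval z - 1‖ := by
      have := norm_sub_le (B.eval z) (B.eval z - 1)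
      simpa using this
    linarith
  have hB0 : B.eval z ≠ 0 := by
    intro h0
    rw [h0, norm_zero] at e5
    linarith
  refine ⟨hB0, ?_⟩
  have e6 : rmap A B z - P.eval z
      = ((A.eval z - P.eval z) - P.eval z * (B.eval z - 1)) / B.eval z := by
    unfold rmap
    field_simp
    ring
  rw [e6, norm_div, div_lt_iff₀ (by linarith)]
  have e7 : ‖(A.eval z - P.eval z) - P.eval z * (B.eval z - 1)‖
      ≤ ‖A.eval z - P.eval z‖ + ‖P.eval z‖ * ‖B.eval z - 1‖ := by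
    refine (norm_sub_le _ _).trans ?_
    rw [norm_mul]
  have e8 : ‖P.eval z‖ * ‖B.eval z - 1‖ ≤ M' * (ε / (4 * (M' + 1))) :=
    mul_le_mul hPz e4.le (norm_nonneg _) hM0
  have e9 : M' * (ε / (4 * (M' + 1))) ≤ ε / 4 := by
    rw [mul_div_assoc', div_le_div_iff₀ (by positivity) (by norm_num)]
    nlinarith
  have e10 : ε / 2 ≤ ε * ‖B.eval z‖ := by nlinarith
  linarith

section

variable (hS : Straightening) (k3 : S_K3) (k4 : S_K4)

include hS k3 k4

theorem ratLimitIn_of {P : ℂ[X]} (hP : 2 ≤ P.natDegree) {D : ℕ} (h : RatLimitIn D P) :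
    Approx P := by
  apply semi_of hS k3 k4 hP
  intro R ε hε
  obtain ⟨τ, hτ, h1⟩ := k9 P D R ε hε
  obtain ⟨A, B, -, hdeg, hA, hB, hyp⟩ := h τ hτ
  have hAd : A.natDegree ≤ D := by rw [← hdeg]; exact le_max_left _ _
  have hBd : B.natDegree ≤ D := by rw [← hdeg]; exact le_max_right _ _
  refine ⟨rmap A B, ?_, fun z hz => ?_, ?_⟩
  · intro z hz
    rw [mem_ball_zero_iff] at hz
    have h2 := (h1 A B hAd hBd hA hB z hz.le).1
    exact (A.differentiable.differentiableAt.div B.differentiable.differentiableAt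
      h2).differentiableWithinAt
  · rw [mem_ball_zero_iff] at hz
    exact (h1 A B hAd hBd hA hB z hz.le).2
  · intro c hc hdc
    refine hyp c ⟨R, fun n => ⟨(hc n).le, ?_⟩⟩ hdc
    exact (h1 A B hAd hBd hA hB _ (hc n).le).1

theorem ratDense {d D : ℕ} (hd : 2 ≤ d) (hdD : d ≤ D) (h : RatDenseIn D) : DenseIn d := by
  intro P hP
  apply ratLimitIn_of hS k3 k4 (by omega) (D := D)
  intro ε hε
  -- a polynomial of degree `D` near `P`
  obtain ⟨T, hT1, hT2⟩ : ∃ T : ℂ[X], T.natDegree = D ∧ ∀ i, ‖T.coeff i - P.coeff i‖ ≤ ε / 2 := by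
    rcases hdD.eq_or_lt with rfl | hlt
    · exact ⟨P, hP, fun i => by rw [sub_self, norm_zero]; positivity⟩
    · refine ⟨P + C ((ε / 2 : ℝ) : ℂ) * X ^ D, ?_, fun i => ?_⟩
      · have hκ0 : ((ε / 2 : ℝ) : ℂ) ≠ 0 := by
          rw [Complex.ofReal_ne_zero]
          positivity
        rw [natDegree_add_eq_right_of_natDegree_lt]
        · exact natDegree_C_mul_X_pow D _ hκ0
        · rw [natDegree_C_mul_X_pow D _ hκ0]
          omega
      · rw [coeff_add, coeff_C_mul_X_pow, add_sub_cancel_left]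
        split_ifs
        · rw [Complex.norm_real, Real.norm_of_nonneg (by positivity)]
        · rw [norm_zero]; positivity
  obtain ⟨A, B, h1, h2, h3, h4, h5⟩ := h T 1 isCoprime_one_right
    (by rw [hT1, natDegree_one]; exact max_eq_left (Nat.zero_le _)) (ε / 2) (by positivity)
  refine ⟨A, B, h1, h2, fun i => ?_, fun i => (h4 i).trans_le (by linarith), h5⟩
  have e : A.coeff i - P.coeff i = (A.coeff i - T.coeff i) + (T.coeff i - P.coeff i) := by ring
  rw [e]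
  calc _ ≤ _ := norm_add_le _ _
    _ < ε / 2 + ε / 2 := by linarith [h3 i, hT2 i]
    _ = ε := by ring

end

end Pool.Agent.J4.H41.DR
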